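import Pool.Agent.Dia.MainB

/-!
# MP_d7a93a_pr: the diameter of the random labelled planar graph is of order n^(1/4)

`diamG G` is the largest distance between two vertices in the same component of `G`, and `prPl n P` is the
probability of `P` for the uniform random planar graph on `Fin n`.  The theorem: the diameter divided by `n^(1/4)` is
tight in `(0, ∞)`; it is smaller than any given positive constant with probability bounded away from `0`; so no
function `f` satisfies `c f(n) ≤ diam ≤ C f(n)` with high probability for constants `0 < c ≤ C`.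
-/

namespace Pool.Agent.Results.MP_d7a93a_pr.OrderQuarter
open Filter Topology

theorem result :
    (∀ ε : ℝ, 0 < ε → ∃ c C : ℝ, 0 < c ∧ c ≤ C ∧ ∀ᶠ n : ℕ in atTop,
      1 - ε ≤ Dia.prPl n fun G => c * (n : ℝ) ^ (1 / 4 : ℝ) ≤ Dia.diamG G ∧
        (Dia.diamG G : ℝ) ≤ C * (n : ℝ) ^ (1 / 4 : ℝ)) ∧
    (∀ c : ℝ, 0 < c → ∃ η : ℝ, 0 < η ∧ ∀ᶠ n : ℕ in atTop,
      η ≤ Dia.prPl n fun G => (Dia.diamG G : ℝ) ≤ c * (n : ℝ) ^ (1 / 4 : ℝ)) ∧
    ¬ ∃ (f : ℕ → ℝ) (c C : ℝ), 0 < c ∧ c ≤ C ∧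
      Tendsto (fun n => Dia.prPl n fun G => c * f n ≤ Dia.diamG G ∧ (Dia.diamG G : ℝ) ≤ C * f n)
        atTop (𝓝 1) :=
  ⟨fun ε hε => Dia.main_A' ε hε, fun c hc => Dia.lower_tail' c hc,
    fun ⟨f, c, C, hc, hcC, h⟩ => Dia.no_order f c C hc hcC h⟩

end Pool.Agent.Results.MP_d7a93a_pr.OrderQuarter
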